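import Pool.Agent.T2h62.QS.Sysd
import Pool.Agent.Results.MP_a59382_lc.QuadraticFamilies

/-!
# Blocks generated by curves

Let `K` be a number field and let `Q` be a rich set of rational primes, for example the primes
`p = 1 mod 4`. The starting results show that the relation `R_K` of the problem is not a finite union
of equations of degree at most three, of families with one free variable of equations of degree at
most two, and of values of rational functions on products of *blocks*, where the blocks may depend on
`b` in an arbitrary way; there a block is built from affine spaces, unirational varieties, quadrics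
and quartic double covers. Here we prove a criterion for a set to be a block, which uses only
one-parameter rational curves on the set, and give new blocks.

(1) A set `X ⊆ K^n` is *generated by curves* if at every point of `X` the tangent vectors are sums of
directions of rational curves over `K` on `X` through the point. The new class of blocks contains the
old blocks and the sets generated by curves, and it is closed under finite unions, products and
dominant rational maps. Examples:
* the nonsingular solutions of every system of `k` quadratic equations such that all nontrivial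
  `K`-linear combinations of the leading forms have rank greater than `k (k + 1)` are generated by
  curves;
* the set of all solutions of every system of `k` quadratic equations in `n ≥ k (k + 2)` variables
  which is nonsingular at infinity is a block.

(2), (3) We consider finite unions `U` of relations between `a, b ∈ K` of three kinds: equations
`∃ z, f(a, b, z) = 0` with `f` of degree at most three in `(a, z)`; families
`∃ w z, g(a, b, w, z) = 0` with `g` of degree at most two in `(a, z)`; `a` is a value of a rational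
function on a product of blocks, where the blocks and the function depend in an arbitrary way on `b`
(for example: `a` is any rational function of the unknowns of a system of quadratic equations with
arbitrary coefficients depending on `b`). If for one `b` without pole above `Q` the union `U` implies
the pole relation, then the relations of the third kind hold for finitely many `a`, the set of all `a`
is thin and it misses infinitely many rational integers. In particular `U` is not the relation `R_K`
of the problem.

The proof of the criterion. A rational function with values in the flat set of the elements without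
pole above `Q` is constant on every rational curve. Let `X` be generated by curves. We pass to a
component `Y` of the Zariski closure of `X`. All derivatives of a rational function `φ` along `Y`
vanish generically on `Y`, because the derivatives in the directions of the curves vanish at the
points of `X` and these directions span the tangent space. So `φ` is algebraic over `K` on `Y`, hence
takes finitely many values. For the systems of quadratic equations the curves are the curves
`P + (∑ g_i(s) w_i - u - s w_k) / G(s)` of the result `QuadraticSystems`.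
-/

set_option autoImplicit false

namespace Pool.Agent.Results.MP_a59382_lc.CurveGeneratedBlocks

open MvPolynomial Pool.Agent.TH766.HP Pool.Agent.TH783.CE Pool.Agent.T2h62.QSys
open Pool.Agent.Results.MP_a59382_lc.CubicEquations (PoleRel)

section defs

variable {K : Type} [Field K] {k n : ℕ}

/-- `τ` is the direction at `x` of a rational curve over `K` through `x` in `X`: there are polynomials
`y_1, …, y_n` of degree at most `m` and `G` of degree greater than `m` such that the point
`x + y(s) / G(s)` is in `X` for all but finitely many `s`, and `τ` is the vector of the coefficients of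
`s ^ m` in `y`. For `s → ∞` the curve tends to `x` in the direction `τ`. -/
def Direction (X : Set (Fin n → K)) (x τ : Fin n → K) : Prop :=
  ∃ (y : Fin n → Polynomial K) (G : Polynomial K) (m : ℕ), (∀ i, (y i).natDegree ≤ m) ∧
    (∀ i, (y i).coeff m = τ i) ∧ m < G.natDegree ∧
    {s | (fun i => x i + (y i).eval s / G.eval s) ∉ X}.Finite

/-- There are polynomials `F_1, …, F_r` which vanish on `X` such that at every point of `X` all vectors
at which their differentials vanish are linear combinations of directions of rational curves in `X`. -/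
def GeneratedByCurves (X : Set (Fin n → K)) : Prop :=
  ∃ (r : ℕ) (F : Fin r → MvPolynomial (Fin n) K), (∀ x ∈ X, ∀ j, eval x (F j) = 0) ∧
    ∀ x ∈ X, ∀ v : Fin n → K, (∀ j, ∑ i, eval x (pderiv i (F j)) * v i = 0) →
      v ∈ Submodule.span K {τ | Direction X x τ}

/-- The factors: sets generated by curves, affine spaces and double covers `w² = f(z)` branched along
smooth quartics (the blocks of the starting result `QuarticDoubleCovers`). -/
inductive Factor {K : Type} [Field K] : ∀ {n : ℕ}, Set (Fin n → K) → Prop
  | curves {n : ℕ} (S : Set (Fin n → K)) (h : GeneratedByCurves S) : Factor S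
  | cover {n : ℕ} (S : Set (Fin (n + 1) → K)) (h : QuarticDoubleCovers.Block S) : Factor S

/-- The set `Y` is empty, or it is dominated by a product of factors: `Y` contains the image of a
rational map `t ↦ (P₁(t)/g(t), …, P_n(t)/g(t))` on the product of the sets `T j`, and the image is
Zariski dense in `Y`. -/
def Dominated (Y : Set (Fin n → K)) : Prop :=
  Y = ∅ ∨ ∃ (s : ℕ) (e : Fin s → ℕ) (T : ∀ j, Set (Fin (e j) → K))
    (g : MvPolynomial ((j : Fin s) × Fin (e j)) K)
    (P : Fin n → MvPolynomial ((j : Fin s) × Fin (e j)) K), (∀ j, Factor (T j)) ∧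
    (∀ t : (j : Fin s) × Fin (e j) → K, (∀ j, (fun r => t ⟨j, r⟩) ∈ T j) → eval t g ≠ 0 →
      (fun k => eval t (P k) / eval t g) ∈ Y) ∧
    ∀ h : MvPolynomial (Fin n) K,
      (∀ t : (j : Fin s) × Fin (e j) → K, (∀ j, (fun r => t ⟨j, r⟩) ∈ T j) → eval t g ≠ 0 →
        eval (fun k => eval t (P k) / eval t g) h = 0) →
      ∀ z ∈ Y, eval z h = 0

/-- A block: a finite union of sets which are empty or dominated by products of factors. -/
def Block (S : Set (Fin n → K)) : Prop :=
  ∃ (r : ℕ) (Y : Fin r → Set (Fin n → K)), (∀ i, Dominated (Y i)) ∧ S = ⋃ i, Y i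

/-- The values of `p / q` at the points `x = (x₁, …, x_r)` with `x_j ∈ S_j` for all `j` and
`q(x) ≠ 0`. -/
def values {r : ℕ} {d : Fin r → ℕ} (S : ∀ j, Set (Fin (d j) → K))
    (p q : MvPolynomial ((j : Fin r) × Fin (d j)) K) : Set K :=
  {t | ∃ x : (j : Fin r) × Fin (d j) → K, (∀ j, (fun i => x ⟨j, i⟩) ∈ S j) ∧
    eval x q ≠ 0 ∧ t = eval x p / eval x q}

/-- A finite union of relations between `a` and `b` of three kinds: equations `f(a, b, z) = 0`,
families of equations `g(a, b, w, z) = 0`, and values of rational functions `p / q` on products of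
sets. -/
def Union {h l u : ℕ} {n : Fin h → ℕ} {m : Fin l → ℕ}
    (f : ∀ i, MvPolynomial (Fin 2 ⊕ Fin (n i)) K) (g : ∀ i, MvPolynomial (Fin 3 ⊕ Fin (m i)) K)
    {r : Fin u → ℕ} {d : ∀ i, Fin (r i) → ℕ} (S : ∀ i, K → ∀ j, Set (Fin (d i j) → K))
    (p q : ∀ i, K → MvPolynomial ((j : Fin (r i)) × Fin (d i j)) K) (a b : K) : Prop :=
  (∃ i, ∃ z : Fin (n i) → K, eval (Sum.elim ![a, b] z) (f i) = 0) ∨
  (∃ i, ∃ (w : K) (z : Fin (m i) → K), eval (Sum.elim ![a, b, w] z) (g i) = 0) ∨
  ∃ i, a ∈ values (S i b) (p i b) (q i b)

end defs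

section lemmas

open Pool.Agent.Y718.FQ
open Pool.Agent.T2h62.QS (CurveGen CurveGen.fcp curveGen_ns pd_X)

variable {K : Type} [Field K] {k n : ℕ}

theorem gen_of {X : Set (Fin n → K)} (h : CurveGen X) : GeneratedByCurves X := h

theorem curveGen_of {X : Set (Fin n → K)} (h : GeneratedByCurves X) : CurveGen X := h

theorem GeneratedByCurves.block {S : Set (Fin n → K)} (h : GeneratedByCurves S) : Block S := by
  refine ⟨1, fun _ => S, fun _ => Or.inr ⟨1, fun _ => n, fun _ => S, 1, fun k => X ⟨0, k⟩,
    fun _ => Factor.curves S h, fun t ht _ => ?_, fun h hh z hz => ?_⟩, (Set.iUnion_const S).symm⟩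
  · have h1 : (fun k => eval t (X ⟨0, k⟩) / eval t 1) = fun k => t ⟨0, k⟩ := by
      funext k
      rw [eval_X, map_one, div_one]
    rw [h1]
    exact ht 0
  · have h1 := hh (fun x => z x.2) (fun _ => hz) (by simp)
    simpa using h1

theorem gen_finite {S : Set (Fin n → K)} (h : ∃ x, S = {x}) : GeneratedByCurves S := by
  obtain ⟨x, rfl⟩ := h
  refine ⟨n, fun i => X i - C (x i), fun z hz j => ?_, fun z hz v hv => ?_⟩
  · rw [Set.mem_singleton_iff.1 hz]
    simp
  · have h1 : v = 0 := by
      funext i
      have h2 := hv i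
      have h3 : ∀ i', eval z (pderiv i' (X i - C (x i))) * v i' = if i = i' then v i' else 0 := by
        intro i'
        rw [map_sub, pderiv_C, sub_zero, pd_X]
        split_ifs <;> simp
      simp only [h3, Finset.sum_ite_eq, Finset.mem_univ, if_true] at h2
      exact h2
    rw [h1]
    exact Submodule.zero_mem _

theorem Block.union {S T : Set (Fin n → K)} (hS : Block S) (hT : Block T) : Block (S ∪ T) := by
  obtain ⟨r, Y, hY, rfl⟩ := hS
  obtain ⟨r', Y', hY', rfl⟩ := hT
  refine ⟨r + r', Fin.append Y Y', fun i => ?_, ?_⟩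
  · refine Fin.addCases (fun i => ?_) (fun i => ?_) i
    · rw [Fin.append_left]; exact hY i
    · rw [Fin.append_right]; exact hY' i
  · ext x
    simp only [Set.mem_union, Set.mem_iUnion]
    constructor
    · rintro (⟨i, hi⟩ | ⟨i, hi⟩)
      · exact ⟨Fin.castAdd r' i, by rw [Fin.append_left]; exact hi⟩
      · exact ⟨Fin.natAdd r i, by rw [Fin.append_right]; exact hi⟩
    · rintro ⟨i, hi⟩
      revert hi
      refine Fin.addCases (fun i hi => ?_) (fun i hi => ?_) i
      · rw [Fin.append_left] at hi; exact Or.inl ⟨i, hi⟩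
      · rw [Fin.append_right] at hi; exact Or.inr ⟨i, hi⟩

theorem block_finite {S : Set (Fin n → K)} (hS : S.Finite) : Block S := by
  induction S, hS using Set.Finite.induction_on with
  | empty => exact ⟨0, fun i => Fin.elim0 i, fun i => Fin.elim0 i, by simp⟩
  | insert _ _ ih =>
    rw [← Set.singleton_union]
    exact (gen_finite ⟨_, rfl⟩).block.union ih

theorem block_old {S : Set (Fin n → K)} (h : UnirationalFibres.Block S) : Block S := by
  obtain ⟨k, Y, hY, rfl⟩ := h
  refine ⟨k, Y, fun i => ?_, rfl⟩
  rcases hY i with h | ⟨s, e, T, g, P, hT, h1, h2⟩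
  · exact Or.inl h
  · exact Or.inr ⟨s, fun j => e j + 1, T, g, P, fun j => Factor.cover _ (hT j), h1, h2⟩

variable [CharZero K] {O : Set K}

theorem Factor.fcp (hO : Flat O) (φ : K →+* ℂ) {S : Set (Fin n → K)} (h : Factor S) : FCP O S := by
  cases h with
  | curves S h => exact CurveGen.fcp hO (curveGen_of h)
  | cover S h =>
    exact Blk.fcp Pool.Agent.Y48.FQ.seq Pool.Agent.Y349.FQ.mvf Pool.Agent.Y67.FQ.line
      Pool.Agent.Y718.FQ.bd hO φ h

theorem Dominated.fcp (hO : Flat O) (φ : K →+* ℂ) {Y : Set (Fin n → K)} (hY : Dominated Y) :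
    FCP O Y := by
  rcases hY with rfl | ⟨s, e, T, g, P, hT, h1, h2⟩
  · exact FCP.of_finite Set.finite_empty
  · exact Pool.Agent.R565.PU.fcp_of_dom
      (FCP.pi Pool.Agent.Y394.FQ.pi fun j => (hT j).fcp hO φ) g P h1 h2

theorem Block.fcp (hO : Flat O) (φ : K →+* ℂ) {S : Set (Fin n → K)} (hS : Block S) : FCP O S := by
  obtain ⟨k, Y, hY, rfl⟩ := hS
  exact Pool.Agent.R565.PU.fcp_iUnion fun i => (hY i).fcp hO φ

theorem values_finite (hO : Flat O) (φ : K →+* ℂ) {r : ℕ} {d : Fin r → ℕ}
    {S : ∀ j, Set (Fin (d j) → K)} (hS : ∀ j, Block (S j))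
    (p q : MvPolynomial ((j : Fin r) × Fin (d j)) K) (h : ∀ t ∈ values S p q, t ∈ O) :
    (values S p q).Finite :=
  (FCP.pi Pool.Agent.Y394.FQ.pi fun j => (hS j).fcp hO φ).values p q
    fun x hx hq => h _ ⟨x, hx, hq, rfl⟩

theorem gen_ns {q : Fin k → MvPolynomial (Fin n) K} (hq : HighRank q) :
    GeneratedByCurves (NonsingularSol q) := gen_of (curveGen_ns q hq.1 (highRank_iff hq))

theorem block_sol {q : Fin k → MvPolynomial (Fin n) K} (hq : NonsingularAtInfinity q)
    (hn : k * (k + 2) ≤ n) : Block (Sol q) := by
  have h1 : Sol q = NonsingularSol q ∪ {x | x ∈ Sol q ∧ x ∉ NonsingularSol q} := by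
    ext x
    constructor
    · intro hx
      by_cases h : x ∈ NonsingularSol q
      · exact Or.inl h
      · exact Or.inr ⟨hx, h⟩
    · rintro (h | h)
      · exact h.1
      · exact h.1
  rw [h1]
  exact (gen_ns (highRank_inf hq hn)).block.union (block_finite (sing_finite hq))

end lemmas

theorem result :
    -- (1) the blocks of the starting files are blocks
    (∀ (K : Type) [Field K] (n : ℕ) (S : Set (Fin n → K)), UnirationalFibres.Block S → Block S) ∧
    -- the sets generated by curves are blocks
    (∀ (K : Type) [Field K] (n : ℕ) (S : Set (Fin n → K)), GeneratedByCurves S → Block S) ∧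
    -- nonsingular solutions of systems of high rank
    (∀ (K : Type) [Field K] [CharZero K] (k n : ℕ) (q : Fin k → MvPolynomial (Fin n) K),
      HighRank q → GeneratedByCurves (NonsingularSol q)) ∧
    -- systems nonsingular at infinity in at least `k (k + 2)` variables
    (∀ (K : Type) [Field K] [CharZero K] (k n : ℕ) (q : Fin k → MvPolynomial (Fin n) K),
      NonsingularAtInfinity q → k * (k + 2) ≤ n → Block (Sol q)) ∧
    -- (2) for every number field the relation `R_K` is not a finite union of such relations
    (∀ (K : Type) [Field K] [NumberField K] (h l u : ℕ) (n : Fin h → ℕ) (m : Fin l → ℕ)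
      (f : ∀ i, MvPolynomial (Fin 2 ⊕ Fin (n i)) K) (g : ∀ i, MvPolynomial (Fin 3 ⊕ Fin (m i)) K),
      (∀ i, ∀ e ∈ (f i).support, e (Sum.inl 0) + ∑ j, e (Sum.inr j) ≤ 3) →
      (∀ i, ∀ e ∈ (g i).support, e (Sum.inl 0) + ∑ j, e (Sum.inr j) ≤ 2) →
      ∀ (r : Fin u → ℕ) (d : ∀ i, Fin (r i) → ℕ) (S : ∀ i, K → ∀ j, Set (Fin (d i j) → K))
        (p q : ∀ i, K → MvPolynomial ((j : Fin (r i)) × Fin (d i j)) K),
      (∃ b ∈ NoPole K {p | p % 4 = 1}, ∀ i j, Block (S i b j)) →
      ¬ ∀ a b : K, Union f g S p q a b ↔ PoleRel K {p | p % 4 = 1} a b) ∧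
    -- (3) the general form, for every rich set of primes
    (∀ (K : Type) [Field K] [NumberField K] (Q : Set ℕ), Rich Q →
      ∀ (h l u : ℕ) (n : Fin h → ℕ) (m : Fin l → ℕ)
      (f : ∀ i, MvPolynomial (Fin 2 ⊕ Fin (n i)) K) (g : ∀ i, MvPolynomial (Fin 3 ⊕ Fin (m i)) K),
      (∀ i, ∀ e ∈ (f i).support, e (Sum.inl 0) + ∑ j, e (Sum.inr j) ≤ 3) →
      (∀ i, ∀ e ∈ (g i).support, e (Sum.inl 0) + ∑ j, e (Sum.inr j) ≤ 2) →
      ∀ (r : Fin u → ℕ) (d : ∀ i, Fin (r i) → ℕ) (S : ∀ i, K → ∀ j, Set (Fin (d i j) → K))
        (p q : ∀ i, K → MvPolynomial ((j : Fin (r i)) × Fin (d i j)) K),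
      ∀ b ∈ NoPole K Q, (∀ i j, Block (S i b j)) →
      (∀ a : K, Union f g S p q a b → PoleRel K Q a b) →
      (∀ i, (values (S i b) (p i b) (q i b)).Finite) ∧
      Thin {a : K | Union f g S p q a b} ∧
      ∀ B : ℤ, ∃ t : ℤ, B < t ∧ PoleRel K Q (t : K) b ∧ ¬ Union f g S p q (t : K) b) := by
  have main : ∀ (K : Type) [Field K] [NumberField K] (Q : Set ℕ), Rich Q →
      ∀ (h l u : ℕ) (n : Fin h → ℕ) (m : Fin l → ℕ)
      (f : ∀ i, MvPolynomial (Fin 2 ⊕ Fin (n i)) K) (g : ∀ i, MvPolynomial (Fin 3 ⊕ Fin (m i)) K),
      (∀ i, ∀ e ∈ (f i).support, e (Sum.inl 0) + ∑ j, e (Sum.inr j) ≤ 3) →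
      (∀ i, ∀ e ∈ (g i).support, e (Sum.inl 0) + ∑ j, e (Sum.inr j) ≤ 2) →
      ∀ (r : Fin u → ℕ) (d : ∀ i, Fin (r i) → ℕ) (S : ∀ i, K → ∀ j, Set (Fin (d i j) → K))
        (p q : ∀ i, K → MvPolynomial ((j : Fin (r i)) × Fin (d i j)) K),
      ∀ b ∈ NoPole K Q, (∀ i j, Block (S i b j)) →
      (∀ a : K, Union f g S p q a b → PoleRel K Q a b) →
      (∀ i, (values (S i b) (p i b) (q i b)).Finite) ∧
      Thin {a : K | Union f g S p q a b} ∧
      ∀ B : ℤ, ∃ t : ℤ, B < t ∧ PoleRel K Q (t : K) b ∧ ¬ Union f g S p q (t : K) b := by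
    intro K _ _ Q hQ h l u n m f g hf hg r d S p q b hb hS hU
    obtain ⟨φ⟩ : Nonempty (K →+* ℂ) := inferInstance
    have hno : ∀ a : K, PoleRel K Q a b → a ∈ NoPole K Q := by
      intro a ha v hv
      by_contra hcon
      exact absurd (ha v hv (not_le.1 hcon)) (not_lt.2 (hb v hv))
    have hfin : ∀ i, (values (S i b) (p i b) (q i b)).Finite := fun i =>
      values_finite (flat_noPole (K := K) hQ) φ (hS i) _ _
        fun t ht => hno t (hU t (Or.inr (Or.inr ⟨i, ht⟩)))
    obtain ⟨h1, -⟩ := QuadraticFamilies.result.2.1 K Q hQ h l 0 n m f g hf hg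
      (fun i => Fin.elim0 i) (fun i => Fin.elim0 i) (fun i => Fin.elim0 i) (fun i => Fin.elim0 i)
      (fun i => Fin.elim0 i) b hb (fun i => Fin.elim0 i) fun a ha => hU a (by
        rcases ha with ha | ha | ⟨i, -⟩
        · exact Or.inl ha
        · exact Or.inr (Or.inl ha)
        · exact Fin.elim0 i)
    have hthin : Thin {a : K | Union f g S p q a b} := by
      refine (h1.union (Thin.of_finite (Set.finite_iUnion hfin))).mono ?_
      rintro a (ha | ha | ⟨i, ha⟩)
      · exact Or.inl (Or.inl ha)
      · exact Or.inl (Or.inr (Or.inl ha))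
      · exact Or.inr (Set.mem_iUnion.2 ⟨i, ha⟩)
    refine ⟨hfin, hthin, fun B => ?_⟩
    obtain ⟨t, ht, ht'⟩ := hthin.exists_int B
    refine ⟨t, ht, fun v _ hv' => ?_, ht'⟩
    exfalso
    have h3 : v.valuation K ((t : NumberField.RingOfIntegers K) : K) ≤ 1 :=
      v.valuation_le_one (K := K) (t : NumberField.RingOfIntegers K)
    have h4 : ((t : NumberField.RingOfIntegers K) : K) = (t : K) := by simp
    rw [h4] at h3
    exact absurd hv' (not_lt.2 h3)
  refine ⟨fun K _ n S hS => block_old hS, fun K _ n S hS => hS.block,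
    fun K _ _ k n q hq => gen_ns hq, fun K _ _ k n q hq hn => block_sol hq hn, ?_, main⟩
  · intro K _ _ h l u n m f g hf hg r d S p q ⟨b, hb, hS⟩ hiff
    obtain ⟨-, -, h1⟩ := main K {p | p % 4 = 1} four h l u n m f g hf hg r d S p q b hb hS
      fun a ha => (hiff a b).1 ha
    obtain ⟨t, -, ht1, ht2⟩ := h1 0
    exact ht2 ((hiff t b).2 ht1)

end Pool.Agent.Results.MP_a59382_lc.CurveGeneratedBlocks
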