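import Pool.Agent.T2h62.PQ.Main
import Pool.Agent.Results.MP_a59382_lc.CurveGeneratedBlocks

/-!
# The pole relation is not defined by pairs of quadratic equations

Let `K` be a number field and let `Q` be a rich set of rational primes, for example the primes
`p = 1 mod 4`. Every existential formula is equivalent to a system of quadratic equations
`∃ z, q_1(a, b, z) = … = q_k(a, b, z) = 0`, and also to one equation of degree four. The starting
result `CubicEquations` treats one equation of degree at most three in `(a, z)`, and the result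
`QuadraticSystems` treats systems of `k` quadratic equations of high rank. Here we treat all pairs
of quadratic equations, without any condition on the rank: singular, reducible and degenerate pairs,
cones and curves of genus one are allowed. For `k = 3` K3 surfaces occur, so that this is the natural
limit of such unconditional theorems.

(1) `R_K` is not a finite union of relations of four kinds:
* pairs of equations `∃ z, f(a, b, z) = g(a, b, z) = 0` with `f`, `g` of degree at most two in
  `(a, z)`, any number of variables `z`, any degree in `b`;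
* equations `∃ z, f(a, b, z) = 0` with `f` of degree at most three in `(a, z)`;
* families `∃ w z, g(a, b, w, z) = 0` with `g` of degree at most two in `(a, z)`;
* `a` is a value of a rational function on a product of blocks, where the blocks and the function
  depend in an arbitrary way on `b` (the blocks of the result `CurveGeneratedBlocks`).

(2) If such a union implies the pole relation for one `b` without pole above `Q`, then it holds for a
thin set of elements `a` only, and it fails for infinitely many rational integers `a`.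

(3) Any number of free variables: if `∃ w z, f(a, b, w, z) = g(a, b, w, z) = 0`, `w` in `K^m`, with
`f`, `g` of degree at most two in `(a, z)`, implies the pole relation for one `b` without pole above
`Q`, then for every `w` the set of the `a` with `∃ z, f(a, b, w, z) = g(a, b, w, z) = 0` is thin.

The proof. The ring of the elements without pole above `Q` is flat: a rational function in one
variable with values in it is constant. Let `x_1 / x_0` be a quotient of linear forms with values in a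
flat set at the common zeros of two quadratic forms `A`, `B` on `V`. We show that all zeros with
`x_0 ≠ 0` lie in finitely many hyperplanes or give one value, except for curves.
* If all members of the pencil `⟨A, B⟩` are degenerate, and there is no common radical, a polynomial
  vector in the kernel gives two vectors `e`, `f` such that outside of the hyperplane `A(e, ·) = 0` the
  zeros are parametrized by `V`.
* Suppose that `A` is nondegenerate and `dim V ≥ 5`. Let `P` be a nonsingular zero, `w` a tangent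
  vector and `G` the member of the pencil which vanishes at `w`. If `G` is nondegenerate, then the zeros
  in the tangent hyperplane `G(P, ·) = 0` form a rational variety through `P`; this gives
  `x_0(P) x_1 - x_1(P) x_0 = k G(P, ·)`, which can happen for one member `G` only. So the members of the
  pencil which vanish at a tangent vector of `P` are in a finite set, one member vanishes on the whole
  tangent space, it is degenerate, and its radical gives a hyperplane through `P` which is one of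
  finitely many.
* For `dim V ≤ 4` one coordinate is eliminated with the member of the pencil which vanishes at a given
  vector; the other coordinates are algebraic over `K(a)`.
-/

set_option autoImplicit false

namespace Pool.Agent.Results.MP_a59382_lc.PairsOfQuadraticEquations

open MvPolynomial Pool.Agent.TH766.HP Pool.Agent.TH783.CE
open Pool.Agent.Results.MP_a59382_lc.CubicEquations (PoleRel)
open Pool.Agent.Results.MP_a59382_lc.CurveGeneratedBlocks (Block Union)

section

variable {K : Type} [Field K] {n : ℕ}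

/-- the polynomial `g(a, b, w, z)` for fixed `b` and `w`, as a polynomial in `(a, z)` -/
noncomputable def fix {m : ℕ} (b : K) (w : Fin m → K)
    (g : MvPolynomial (Fin 2 ⊕ (Fin m ⊕ Fin n)) K) : MvPolynomial (Fin (n + 1)) K :=
  g.eval₂ C (Sum.elim ![X 0, C b] (Sum.elim (fun i => C (w i)) fun j => X j.succ))

theorem eval_fix {m : ℕ} (b : K) (w : Fin m → K)
    (g : MvPolynomial (Fin 2 ⊕ (Fin m ⊕ Fin n)) K) (a : K) (z : Fin n → K) :
    eval (Fin.cons a z : Fin (n + 1) → K) (fix b w g) = eval (Sum.elim ![a, b] (Sum.elim w z)) g := by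
  rw [fix, eval_eval₂]
  have h1 : (eval (Fin.cons a z : Fin (n + 1) → K)).comp C = RingHom.id K := by
    ext x
    simp
  have h2 : (fun s => eval (Fin.cons a z : Fin (n + 1) → K)
      (Sum.elim ![X 0, C b] (Sum.elim (fun i => C (w i)) fun j => X j.succ) s)) =
      Sum.elim ![a, b] (Sum.elim w z) := by
    funext s
    rcases s with s | s | s
    · fin_cases s
      · simp
      · simp
    · simp
    · simp
  rw [h1, h2]
  rfl

theorem fix_degree {m : ℕ} (b : K) (w : Fin m → K)
    (g : MvPolynomial (Fin 2 ⊕ (Fin m ⊕ Fin n)) K)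
    (hg : ∀ e ∈ g.support, e (Sum.inl 0) + ∑ j, e (Sum.inr (Sum.inr j)) ≤ 2) :
    (fix b w g).totalDegree ≤ 2 := by
  rw [fix, eval₂_eq']
  refine totalDegree_finsetSum_le fun e he => ?_
  refine (totalDegree_mul _ _).trans ?_
  rw [totalDegree_C, zero_add]
  refine (totalDegree_finsetProd _ _).trans ?_
  refine le_trans ?_ (hg e he)
  rw [Fintype.sum_sum_type, Fin.sum_univ_two, Fintype.sum_sum_type]
  have e1 : (totalDegree ((Sum.elim ![X 0, C b] (Sum.elim (fun i => C (w i))
      fun j : Fin n => X j.succ) (Sum.inl 0) : MvPolynomial (Fin (n + 1)) K) ^ e (Sum.inl 0))) ≤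
      e (Sum.inl 0) := by
    refine (totalDegree_pow _ _).trans ?_
    nontriviality K
    simp
  have e2 : (totalDegree ((Sum.elim ![X 0, C b] (Sum.elim (fun i => C (w i))
      fun j : Fin n => X j.succ) (Sum.inl 1) : MvPolynomial (Fin (n + 1)) K) ^ e (Sum.inl 1))) ≤
      0 := by
    refine (totalDegree_pow _ _).trans ?_
    simp
  have e3 : ∀ j : Fin m, (totalDegree ((Sum.elim ![X 0, C b] (Sum.elim (fun i => C (w i))
      fun j : Fin n => X j.succ) (Sum.inr (Sum.inl j)) : MvPolynomial (Fin (n + 1)) K) ^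
      e (Sum.inr (Sum.inl j)))) ≤ 0 := by
    intro j
    refine (totalDegree_pow _ _).trans ?_
    simp
  have e4 : ∀ j : Fin n, (totalDegree ((Sum.elim ![X 0, C b] (Sum.elim (fun i => C (w i))
      fun j : Fin n => X j.succ) (Sum.inr (Sum.inr j)) : MvPolynomial (Fin (n + 1)) K) ^
      e (Sum.inr (Sum.inr j)))) ≤ e (Sum.inr (Sum.inr j)) := by
    intro j
    refine (totalDegree_pow _ _).trans ?_
    simp
  have e5 := Finset.sum_le_sum fun j (_ : j ∈ (Finset.univ : Finset (Fin m))) => e3 j
  have e6 := Finset.sum_le_sum fun j (_ : j ∈ (Finset.univ : Finset (Fin n))) => e4 j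
  simp only [Finset.sum_const_zero] at e5
  omega

theorem slice_degree_two (b : K) (f : MvPolynomial (Fin 2 ⊕ Fin n) K) [CharZero K]
    (hf : ∀ e ∈ f.support, e (Sum.inl 0) + ∑ j, e (Sum.inr j) ≤ 2) :
    (slice b f).totalDegree ≤ 2 := by
  rw [slice, eval₂_eq']
  refine totalDegree_finsetSum_le fun e he => ?_
  refine (totalDegree_mul _ _).trans ?_
  rw [totalDegree_C, zero_add]
  refine (totalDegree_finsetProd _ _).trans ?_
  refine le_trans ?_ (hf e he)
  rw [Fintype.sum_sum_type, Fin.sum_univ_two]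
  have e1 : (totalDegree ((Sum.elim ![X 0, C b] (fun j : Fin n => X j.succ) (Sum.inl 0) :
      MvPolynomial (Fin (n + 1)) K) ^ e (Sum.inl 0))) ≤ e (Sum.inl 0) := by
    refine (totalDegree_pow _ _).trans ?_
    simp
  have e2 : (totalDegree ((Sum.elim ![X 0, C b] (fun j : Fin n => X j.succ) (Sum.inl 1) :
      MvPolynomial (Fin (n + 1)) K) ^ e (Sum.inl 1))) ≤ 0 := by
    refine (totalDegree_pow _ _).trans ?_
    simp
  have e3 : ∀ j : Fin n, (totalDegree ((Sum.elim ![X 0, C b] (fun j : Fin n => X j.succ)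
      (Sum.inr j) : MvPolynomial (Fin (n + 1)) K) ^ e (Sum.inr j))) ≤ e (Sum.inr j) := by
    intro j
    refine (totalDegree_pow _ _).trans ?_
    simp
  have e4 := Finset.sum_le_sum fun j (_ : j ∈ (Finset.univ : Finset (Fin n))) => e3 j
  omega

end

/-- A finite union of relations `∃ z, f(a, b, z) = g(a, b, z) = 0`. -/
def Pairs {K : Type} [Field K] {h : ℕ} {n : Fin h → ℕ}
    (f g : ∀ i, MvPolynomial (Fin 2 ⊕ Fin (n i)) K) (a b : K) : Prop :=
  ∃ i, ∃ z : Fin (n i) → K,
    eval (Sum.elim ![a, b] z) (f i) = 0 ∧ eval (Sum.elim ![a, b] z) (g i) = 0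

/-- The degree in `(a, z)` is at most `d`. -/
def DegreeLE {K : Type} [Field K] {n : ℕ} (d : ℕ) (f : MvPolynomial (Fin 2 ⊕ Fin n) K) : Prop :=
  ∀ e ∈ f.support, e (Sum.inl 0) + ∑ j, e (Sum.inr j) ≤ d

theorem result :
    -- (1) the relation `R_K`
    (∀ (K : Type) [Field K] [NumberField K] (h₀ : ℕ) (n₀ : Fin h₀ → ℕ)
      (f₁ f₂ : ∀ i, MvPolynomial (Fin 2 ⊕ Fin (n₀ i)) K),
      (∀ i, DegreeLE 2 (f₁ i)) → (∀ i, DegreeLE 2 (f₂ i)) →
      ∀ (h l u : ℕ) (n : Fin h → ℕ) (m : Fin l → ℕ)
      (f : ∀ i, MvPolynomial (Fin 2 ⊕ Fin (n i)) K) (g : ∀ i, MvPolynomial (Fin 3 ⊕ Fin (m i)) K),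
      (∀ i, DegreeLE 3 (f i)) →
      (∀ i, ∀ e ∈ (g i).support, e (Sum.inl 0) + ∑ j, e (Sum.inr j) ≤ 2) →
      ∀ (r : Fin u → ℕ) (d : ∀ i, Fin (r i) → ℕ) (S : ∀ i, K → ∀ j, Set (Fin (d i j) → K))
        (p q : ∀ i, K → MvPolynomial ((j : Fin (r i)) × Fin (d i j)) K),
      (∃ b ∈ NoPole K {p | p % 4 = 1}, ∀ i j, Block (S i b j)) →
      ¬ ∀ a b : K, (Pairs f₁ f₂ a b ∨ Union f g S p q a b) ↔ PoleRel K {p | p % 4 = 1} a b) ∧
    -- (2) the general form, for every rich set of primes
    (∀ (K : Type) [Field K] [NumberField K] (Q : Set ℕ), Rich Q →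
      ∀ (h₀ : ℕ) (n₀ : Fin h₀ → ℕ) (f₁ f₂ : ∀ i, MvPolynomial (Fin 2 ⊕ Fin (n₀ i)) K),
      (∀ i, DegreeLE 2 (f₁ i)) → (∀ i, DegreeLE 2 (f₂ i)) →
      ∀ (h l u : ℕ) (n : Fin h → ℕ) (m : Fin l → ℕ)
      (f : ∀ i, MvPolynomial (Fin 2 ⊕ Fin (n i)) K) (g : ∀ i, MvPolynomial (Fin 3 ⊕ Fin (m i)) K),
      (∀ i, DegreeLE 3 (f i)) →
      (∀ i, ∀ e ∈ (g i).support, e (Sum.inl 0) + ∑ j, e (Sum.inr j) ≤ 2) →
      ∀ (r : Fin u → ℕ) (d : ∀ i, Fin (r i) → ℕ) (S : ∀ i, K → ∀ j, Set (Fin (d i j) → K))
        (p q : ∀ i, K → MvPolynomial ((j : Fin (r i)) × Fin (d i j)) K),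
      ∀ b ∈ NoPole K Q, (∀ i j, Block (S i b j)) →
      (∀ a : K, Pairs f₁ f₂ a b ∨ Union f g S p q a b → PoleRel K Q a b) →
      Thin {a : K | Pairs f₁ f₂ a b ∨ Union f g S p q a b} ∧
      ∀ B : ℤ, ∃ t : ℤ, B < t ∧ PoleRel K Q (t : K) b ∧
        ¬ (Pairs f₁ f₂ (t : K) b ∨ Union f g S p q (t : K) b)) ∧
    -- (3) any number of free variables
    (∀ (K : Type) [Field K] [NumberField K] (Q : Set ℕ), Rich Q →
      ∀ (m n : ℕ) (f g : MvPolynomial (Fin 2 ⊕ (Fin m ⊕ Fin n)) K),
      (∀ e ∈ f.support, e (Sum.inl 0) + ∑ j, e (Sum.inr (Sum.inr j)) ≤ 2) →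
      (∀ e ∈ g.support, e (Sum.inl 0) + ∑ j, e (Sum.inr (Sum.inr j)) ≤ 2) →
      ∀ b ∈ NoPole K Q,
      (∀ (a : K) (w : Fin m → K) (z : Fin n → K), eval (Sum.elim ![a, b] (Sum.elim w z)) f = 0 →
        eval (Sum.elim ![a, b] (Sum.elim w z)) g = 0 → PoleRel K Q a b) →
      ∀ w : Fin m → K, Thin {a : K | ∃ z : Fin n → K,
        eval (Sum.elim ![a, b] (Sum.elim w z)) f = 0 ∧
        eval (Sum.elim ![a, b] (Sum.elim w z)) g = 0}) := by
  have hno : ∀ (K : Type) [Field K] [NumberField K] (Q : Set ℕ), ∀ b ∈ NoPole K Q, ∀ a : K,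
      PoleRel K Q a b → a ∈ NoPole K Q := by
    intro K _ _ Q b hb a ha v hv
    by_contra hcon
    exact absurd (ha v hv (not_le.1 hcon)) (not_lt.2 (hb v hv))
  have main : ∀ (K : Type) [Field K] [NumberField K] (Q : Set ℕ), Rich Q →
      ∀ (h₀ : ℕ) (n₀ : Fin h₀ → ℕ) (f₁ f₂ : ∀ i, MvPolynomial (Fin 2 ⊕ Fin (n₀ i)) K),
      (∀ i, DegreeLE 2 (f₁ i)) → (∀ i, DegreeLE 2 (f₂ i)) →
      ∀ (h l u : ℕ) (n : Fin h → ℕ) (m : Fin l → ℕ)
      (f : ∀ i, MvPolynomial (Fin 2 ⊕ Fin (n i)) K) (g : ∀ i, MvPolynomial (Fin 3 ⊕ Fin (m i)) K),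
      (∀ i, DegreeLE 3 (f i)) →
      (∀ i, ∀ e ∈ (g i).support, e (Sum.inl 0) + ∑ j, e (Sum.inr j) ≤ 2) →
      ∀ (r : Fin u → ℕ) (d : ∀ i, Fin (r i) → ℕ) (S : ∀ i, K → ∀ j, Set (Fin (d i j) → K))
        (p q : ∀ i, K → MvPolynomial ((j : Fin (r i)) × Fin (d i j)) K),
      ∀ b ∈ NoPole K Q, (∀ i j, Block (S i b j)) →
      (∀ a : K, Pairs f₁ f₂ a b ∨ Union f g S p q a b → PoleRel K Q a b) →
      Thin {a : K | Pairs f₁ f₂ a b ∨ Union f g S p q a b} ∧
      ∀ B : ℤ, ∃ t : ℤ, B < t ∧ PoleRel K Q (t : K) b ∧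
        ¬ (Pairs f₁ f₂ (t : K) b ∨ Union f g S p q (t : K) b) := by
    intro K _ _ Q hQ h₀ n₀ f₁ f₂ hf₁ hf₂ h l u n m f g hf hg r d S p q b hb hS hU
    obtain ⟨-, h1, -⟩ := CurveGeneratedBlocks.result.2.2.2.2.2 K Q hQ h l u n m f g hf hg r d S p q b
      hb hS fun a ha => hU a (Or.inr ha)
    have h2 : Thin {a : K | Pairs f₁ f₂ a b} := by
      have e : {a : K | Pairs f₁ f₂ a b} = ⋃ i ∈ (Set.univ : Set (Fin h₀)),
          {a : K | ∃ z : Fin (n₀ i) → K,
            eval (Fin.cons a z : Fin (n₀ i + 1) → K) (slice b (f₁ i)) = 0 ∧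
            eval (Fin.cons a z : Fin (n₀ i + 1) → K) (slice b (f₂ i)) = 0} := by
        ext a
        simp only [Pairs, eval_slice, Set.mem_ofPred_eq, Set.mem_univ, Set.iUnion_true,
          Set.mem_iUnion]
      rw [e]
      refine Thin.biUnion Set.finite_univ fun i _ => ?_
      refine Pool.Agent.T2h62.PQ.thin_pair (flat_noPole (K := K) hQ) _ _
        (slice_degree_two b (f₁ i) (hf₁ i)) (slice_degree_two b (f₂ i) (hf₂ i))
        fun t z hz1 hz2 => ?_
      rw [eval_slice] at hz1 hz2
      exact hno K Q b hb t (hU t (Or.inl ⟨i, z, hz1, hz2⟩))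
    have hthin : Thin {a : K | Pairs f₁ f₂ a b ∨ Union f g S p q a b} := h2.union h1
    refine ⟨hthin, fun B => ?_⟩
    obtain ⟨t, ht, ht'⟩ := hthin.exists_int B
    refine ⟨t, ht, fun v _ hv' => ?_, ht'⟩
    exfalso
    have h3 : v.valuation K ((t : NumberField.RingOfIntegers K) : K) ≤ 1 :=
      v.valuation_le_one (K := K) (t : NumberField.RingOfIntegers K)
    have h4 : ((t : NumberField.RingOfIntegers K) : K) = (t : K) := by simp
    rw [h4] at h3
    exact absurd hv' (not_lt.2 h3)
  refine ⟨?_, main, ?_⟩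
  · intro K _ _ h₀ n₀ f₁ f₂ hf₁ hf₂ h l u n m f g hf hg r d S p q ⟨b, hb, hS⟩ hiff
    obtain ⟨-, h1⟩ := main K {p | p % 4 = 1} four h₀ n₀ f₁ f₂ hf₁ hf₂ h l u n m f g hf hg r d S p q
      b hb hS fun a ha => (hiff a b).1 ha
    obtain ⟨t, -, ht1, ht2⟩ := h1 0
    exact ht2 ((hiff t b).2 ht1)
  · intro K _ _ Q hQ m n f g hf hg b hb hU w
    have h1 := Pool.Agent.T2h62.PQ.thin_pair (flat_noPole (K := K) hQ) _ _
      (fix_degree b w f hf) (fix_degree b w g hg) fun t z hz1 hz2 => by
        rw [eval_fix] at hz1 hz2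
        exact hno K Q b hb t (hU t w z hz1 hz2)
    refine h1.mono ?_
    rintro a ⟨z, hz1, hz2⟩
    exact ⟨z, by rw [eval_fix]; exact hz1, by rw [eval_fix]; exact hz2⟩

end Pool.Agent.Results.MP_a59382_lc.PairsOfQuadraticEquations
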