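import Pool.Agent.T2h62.QS.Sysd
import Pool.Agent.Results.MP_a59382_lc.CubicEquations

/-!
# The pole relation is not defined by systems of quadratic equations of high rank

Let `K` be a number field and let `Q` be a rich set of rational primes, for example the primes
`p = 1 mod 4`. Every existential formula is equivalent to a system of quadratic equations
`∃ z, q_1(a, b, z) = … = q_k(a, b, z) = 0`. The starting results treat one equation of degree at most
two or three in `(a, z)`. Here we consider systems of any number `k` of equations of degree at most
two in `(a, z)`, of arbitrary degree in `b` and in any number of further quantified variables `w`.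

(1) If `∃ w z, q_1(a, b, w, z) = … = q_k(a, b, w, z) = 0` implies the pole relation for one `b`
without pole above `Q`, then for every `w` such that all nontrivial `K`-linear combinations of the
leading forms in `(a, z)` have rank greater than `k (k + 1)`, all solutions `(a, z)` are singular; and
for every `w` such that the system is nonsingular at infinity, in `n + 1 ≥ k (k + 2)` variables
`(a, z)`, there are only finitely many solutions `(a, z)`, and they are singular. (Being nonsingular
at infinity is a generic condition on the leading forms; it implies the condition on the rank, and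
there is no condition at the finite points.)

(2) `R_K` is not of the form `∃ z, q_1(a, b, z) = … = q_k(a, b, z) = 0` if for one `b` without pole
above the primes `1` modulo `4` the system in the `n + 1 ≥ k (k + 2)` variables `(a, z)` is
nonsingular at infinity.

The proof. The set of the elements without pole above `Q` is flat: a rational function in one
variable with values in it is constant. Let `P` be a nonsingular solution, `L` the differential of the
system at `P` and `B` the polar form of the leading forms, with values in `K^k`. For generic `w_1` in
the kernel of `L` one finds successively `w_2, …, w_k` and `u` with `L w_i = 0`, `B(w_i, w_j) ∈ E_i`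
for `i < j`, `2 B(w_i, u) = B(w_{i + 1}, w_{i + 1}) mod E_i` and `L u = B(w_1, w_1)`, where `E_i` is
spanned by `B(w_1, w_1), …, B(w_i, w_i)`; they exist because of the condition on the rank, since a
pencil of linear maps maps the kernel of a member of maximal rank into its image. Then there are
polynomials `g_1, …, g_{k-1}, G` in one variable `s` such that
`P + (∑ g_i(s) w_i - u - s w_k) / G(s)` solves the system for all `s`; for `s → ∞` this curve tends to
`P` in the direction `w_1`. The coordinate `a` is not constant on all these curves. The finiteness of
the number of singular solutions follows from the Nullstellensatz at infinity, and the condition on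
the rank from the existence of common zeros of `k - 1` quadratic forms in `k` variables.
-/

set_option autoImplicit false

namespace Pool.Agent.Results.MP_a59382_lc.QuadraticSystems

open MvPolynomial Pool.Agent.TH766.HP Pool.Agent.TH783.CE Pool.Agent.T2h62.QSys
open Pool.Agent.Results.MP_a59382_lc.CubicEquations (PoleRel)

section defs

variable {K : Type} [Field K] {n : ℕ}

/-- the polynomial `g(a, b, w, z)` for fixed `b` and `w`, as a polynomial in `(a, z)` -/
noncomputable def fix {m : ℕ} (b : K) (w : Fin m → K)
    (g : MvPolynomial (Fin 2 ⊕ (Fin m ⊕ Fin n)) K) : MvPolynomial (Fin (n + 1)) K :=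
  aeval (Sum.elim ![X 0, C b] (Sum.elim (fun i => C (w i)) fun j => X j.succ)) g

/-- the polynomial `g(a, b, z)` for fixed `b`, as a polynomial in `(a, z)` -/
noncomputable def fixB (b : K) (g : MvPolynomial (Fin 2 ⊕ Fin n) K) : MvPolynomial (Fin (n + 1)) K :=
  aeval (Sum.elim ![X 0, C b] fun j => X j.succ) g

theorem eval_fix {m : ℕ} (b : K) (w : Fin m → K)
    (g : MvPolynomial (Fin 2 ⊕ (Fin m ⊕ Fin n)) K) (x : Fin (n + 1) → K) :
    eval x (fix b w g) = eval (Sum.elim ![x 0, b] (Sum.elim w fun j => x j.succ)) g := by
  unfold fix
  induction g using MvPolynomial.induction_on with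
  | C a => simp
  | add p q hp hq => rw [map_add, map_add, map_add, hp, hq]
  | mul_X p i hp =>
    rw [map_mul, map_mul, map_mul, hp, aeval_X, eval_X]
    congr 1
    rcases i with i | i | i
    · fin_cases i <;> simp
    · simp
    · simp

theorem eval_fixB (b : K) (g : MvPolynomial (Fin 2 ⊕ Fin n) K) (x : Fin (n + 1) → K) :
    eval x (fixB b g) = eval (Sum.elim ![x 0, b] fun j => x j.succ) g := by
  unfold fixB
  induction g using MvPolynomial.induction_on with
  | C a => simp
  | add p q hp hq => rw [map_add, map_add, map_add, hp, hq]
  | mul_X p i hp =>
    rw [map_mul, map_mul, map_mul, hp, aeval_X, eval_X]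
    congr 1
    rcases i with i | i
    · fin_cases i <;> simp
    · simp

end defs

theorem result :
    -- (1) any number of free variables `w`
    (∀ (K : Type) [Field K] [NumberField K] (Q : Set ℕ), Rich Q →
      ∀ (k m n : ℕ) (q : Fin k → MvPolynomial (Fin 2 ⊕ (Fin m ⊕ Fin n)) K),
      ∀ b ∈ NoPole K Q,
      (∀ (a : K) (w : Fin m → K) (z : Fin n → K),
        (∀ j, eval (Sum.elim ![a, b] (Sum.elim w z)) (q j) = 0) → PoleRel K Q a b) →
      ∀ w : Fin m → K,
        ((HighRank fun j => fix b w (q j)) → NonsingularSol (fun j => fix b w (q j)) = ∅) ∧
        ((NonsingularAtInfinity fun j => fix b w (q j)) → k * (k + 2) ≤ n + 1 →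
          NonsingularSol (fun j => fix b w (q j)) = ∅ ∧ (Sol fun j => fix b w (q j)).Finite)) ∧
    -- (2) the relation `R_K` is not defined by such a system
    (∀ (K : Type) [Field K] [NumberField K] (k n : ℕ)
      (q : Fin k → MvPolynomial (Fin 2 ⊕ Fin n) K), k * (k + 2) ≤ n + 1 →
      (∃ b ∈ NoPole K {p | p % 4 = 1}, NonsingularAtInfinity fun j => fixB b (q j)) →
      ¬ ∀ a b : K, (∃ z : Fin n → K, ∀ j, eval (Sum.elim ![a, b] z) (q j) = 0) ↔
        PoleRel K {p | p % 4 = 1} a b) := by
  refine ⟨?_, ?_⟩
  · intro K _ _ Q hQ k m n q b hb hU w
    have hno : ∀ a : K, PoleRel K Q a b → a ∈ NoPole K Q := by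
      intro a ha v hv
      by_contra hcon
      exact absurd (ha v hv (not_le.1 hcon)) (not_lt.2 (hb v hv))
    have h1 : (HighRank fun j => fix b w (q j)) →
        NonsingularSol (fun j => fix b w (q j)) = ∅ := by
      intro hr
      refine no_ns (flat_noPole (K := K) hQ) hr 0
        fun x hx => hno _ (hU (x 0) w (fun j => x j.succ) fun j => ?_)
      rw [← eval_fix]
      exact hx.1 j
    refine ⟨h1, fun hs hn => ?_⟩
    have h2 := h1 (highRank_inf hs hn)
    refine ⟨h2, (sing_finite hs).subset fun x hx => ⟨hx, ?_⟩⟩
    rw [h2]
    exact Set.notMem_empty x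
  · intro K _ _ k n q hkn ⟨b, hb, hs⟩ hiff
    have hno : ∀ a : K, PoleRel K {p | p % 4 = 1} a b → a ∈ NoPole K {p | p % 4 = 1} := by
      intro a ha v hv
      by_contra hcon
      exact absurd (ha v hv (not_le.1 hcon)) (not_lt.2 (hb v hv))
    have hemp : NonsingularSol (fun j => fixB b (q j)) = ∅ :=
      no_ns (flat_noPole (K := K) four) (highRank_inf hs hkn) 0 fun x hx => hno _ ((hiff (x 0) b).1
        ⟨fun j => x j.succ, fun j => by rw [← eval_fixB]; exact hx.1 j⟩)
    have hfin : (Sol fun j => fixB b (q j)).Finite := by
      refine (sing_finite hs).subset fun x hx => ⟨hx, ?_⟩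
      rw [hemp]
      exact Set.notMem_empty x
    have hint : ∀ t : ℤ, PoleRel K {p | p % 4 = 1} (t : K) b := by
      intro t v _ hv'
      exfalso
      have h3 : v.valuation K ((t : NumberField.RingOfIntegers K) : K) ≤ 1 :=
        v.valuation_le_one (K := K) (t : NumberField.RingOfIntegers K)
      have h4 : ((t : NumberField.RingOfIntegers K) : K) = (t : K) := by simp
      rw [h4] at h3
      exact absurd hv' (not_lt.2 h3)
    choose z hz using fun t : ℤ => (hiff (t : K) b).2 (hint t)
    have hinj : Function.Injective (fun t : ℤ => (Fin.cons (t : K) (z t) : Fin (n + 1) → K)) := by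
      intro t t' h
      have h3 := congrFun h 0
      simp only [Fin.cons_zero] at h3
      exact_mod_cast h3
    refine Set.infinite_univ (α := ℤ) (Set.Finite.of_finite_image (hfin.subset ?_)
      (hinj.injOn (s := Set.univ)))
    rintro _ ⟨t, -, rfl⟩ j
    rw [eval_fixB]
    simpa using hz t j

end Pool.Agent.Results.MP_a59382_lc.QuadraticSystems
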