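import Pool.Agent.Results.MP_a59382_lc.AlmostAllIntegers
import Pool.Agent.T3h87.SS.HitK
import Pool.Agent.T3h87.SS.One

/-!
# Existential formulas which imply the pole relation fail at almost all members of sparse families of integers

Let `K` be a number field and let `Q` be a rich set of rational primes, for example the primes `p = 1 mod 4`. The relation
`R_K(a, b)` of the problem holds for all rational integers `a` and all `b ∈ K`. The starting result `AlmostAllIntegers` shows for
large classes of existential formulas `Φ`: if `Φ(a, b)` implies the pole relation for all `a ∈ K` then it fails for almost all terms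
`a` (in the sense of density zero) of every sequence of integers which is equidistributed modulo all integers. Here we show that it
fails for all but a very small proportion, with the saving of a power, of the members of sparse families of integers, of the six kinds
`Kind` (in the file `Pool.Agent.T3h87.LT.Kinds`): automatic sets (for example the integers with missing digits); random integers
whose blocks of digits can be exchanged; rearrangements of given digits; palindromes; residues with small Fourier coefficients;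
integer parts of functions of non-integral order. A member `f` of such a family (`Fam`) is a random integer, given by finitely many
values with weights, with a size.

Theorem. Let `𝓕` be a kind of sparse families. There are `η > 0` and `A > 0` such that for all `κ ≠ 0`:

(1) for all number fields `K` and all thin subsets `D` of `K` the probability that the random integer `f ∈ 𝓕 κ` is in `D` is at most
`(size of f) ^ (-η)`, if the size is large (Hilbert's irreducibility theorem for sparse families);

(2) for all number fields `K`, rich sets `Q`, admissible formulas `Φ` and `b ∈ K`: if `Φ(a, b)` implies the pole relation for all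
`a ∈ K` then the probability that `Φ(f, b)` holds for the random integer `f ∈ 𝓕 κ` is at most `(size of f) ^ (-η)`, if the size is
large; for `K = ℚ` the formulas may also be disjunctions with quadratic equations of rank at least five;

(3) for all random integers `X 0, X 1, ...` (with an arbitrary joint distribution), `X i` with the distribution of a member of `𝓕 κ`
of a size at least `(i + 1) ^ A`, almost surely: for ALL number fields `K`, ALL rich sets `Q`, ALL formulas `Φ` and `b ∈ K` as in (2)
the formula `Φ(X i, b)` fails for all but FINITELY many `i` (although the pole relation holds for all `X i` and `b`), and `X i` is in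
`D` for at most finitely many `i`, for ALL thin sets `D` of ALL number fields.

The formulas are those of the starting result `AlmostAllIntegers`: finite disjunctions of the formulas of the starting results
`CubicEquations`, `QuadraticFamilies`, `QuarticDoubleCovers`, `UnirationalFibres`, and of formulas `∃ w_1 … w_c, β(a, b, w)`, where
`β` is an arbitrary quantifier-free formula in the language of rings with parameters in `K` and `c ≤ 1`, or `c` is arbitrary and the
witnesses `w_i` are algebraic over the field `K(a)`.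

Proof. The formulas define thin sets (`Pool.Agent.N455.PR.thin_main`, helper455). A thin set of a number field induces a thin set of
integers in `ℚ` (helper716); modulo a positive proportion of the primes a polynomial without root has no root for a positive
proportion of the residues (`Pool.Agent.N455.HT.dens_lower` and the prime ideal theorem of `Pool.Agent.W401.Cheb`), and the sieve for
sparse families (`Pool.Agent.T3h87.SS`) shows that the exceptions have a small probability.
-/

set_option autoImplicit false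

namespace Pool.Agent.Results.MP_a59382_lc.SparseMembers

open MeasureTheory Filter Topology
open Pool.Agent.TH766.HP Pool.Agent.TH783.CE
open Pool.Agent.Results.MP_a59382_lc.CubicEquations (PoleRel)
open Pool.Agent.Results.MP_a59382_lc.AlmostAllIntegers (Formula Forms)
open Pool.Agent.R565.QR (spec Solvable)
open Pool.Agent.T3h87.LT (Fam Kind)
open Pool.Agent.T3h87.SS (prob Law)

theorem thin_formula {K : Type} [Field K] [NumberField K] {Q : Set ℕ} (hQ : Rich Q) (Φ : Formula K) (b : K) (hΦ : Φ.AdmissibleAt b)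
    (hs : Φ.SoundAt Q b) : Thin {a | Φ.Holds a b} :=
  Pool.Agent.N455.PR.thin_main hQ hΦ.1.1 hΦ.1.2 b hΦ.2.1 hΦ.2.2 hs

theorem thin_forms {Q : Set ℕ} (hQ : Rich Q) (Φ : Formula ℚ) (Ψ : Forms) (b : ℚ) (hΦ : Φ.AdmissibleAt b) (hΨ : Ψ.RankFiveAt b)
    (hs : ∀ a : ℚ, (Φ.Holds a b ∨ Ψ.Holds a b) → PoleRel ℚ Q a b) : Thin {a | Φ.Holds a b ∨ Ψ.Holds a b} := by
  have h1 := thin_formula hQ Φ b hΦ fun a ha => hs a (Or.inl ha)
  have h2 : {a | Ψ.Holds a b}.Finite := by
    have : {a | Ψ.Holds a b} = ⋃ i, {a | Solvable (Ψ.A i) a b} := by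
      ext a
      simp [Forms.Holds]
    rw [this]
    exact Set.finite_iUnion fun i => Pool.Agent.N455.PR.fin_rank5 hQ (hΨ i).1 b (hΨ i).2
      fun a ha => hs a (Or.inr ⟨i, ha⟩)
  exact h1.union (Thin.of_finite h2)

/-- **Formulas which imply the pole relation fail at almost all members of sparse families of integers.** -/
theorem result (𝓕 : ℤ → Set Fam) (h𝓕 : Kind 𝓕) :
    ∃ η A : ℝ, 0 < η ∧ 0 < A ∧ ∀ κ : ℤ, κ ≠ 0 →
      -- thin sets
      (∀ (K : Type) [Field K] [NumberField K] (D : Set K), Thin D →
        ∃ Z₀ : ℝ, ∀ f ∈ 𝓕 κ, Z₀ ≤ f.size → prob f (fun v => (v : K) ∈ D) ≤ f.size ^ (-η)) ∧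
      -- formulas over number fields
      (∀ (K : Type) [Field K] [NumberField K] (Q : Set ℕ), Rich Q →
        ∀ (Φ : Formula K) (b : K), Φ.AdmissibleAt b → Φ.SoundAt Q b →
        ∃ Z₀ : ℝ, ∀ f ∈ 𝓕 κ, Z₀ ≤ f.size → prob f (fun v => Φ.Holds (v : K) b) ≤ f.size ^ (-η)) ∧
      -- formulas over the rational numbers
      (∀ Q : Set ℕ, Rich Q → ∀ (Φ : Formula ℚ) (Ψ : Forms) (b : ℚ), Φ.AdmissibleAt b → Ψ.RankFiveAt b →
        (∀ a : ℚ, (Φ.Holds a b ∨ Ψ.Holds a b) → PoleRel ℚ Q a b) →
        ∃ Z₀ : ℝ, ∀ f ∈ 𝓕 κ, Z₀ ≤ f.size →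
          prob f (fun v => Φ.Holds (v : ℚ) b ∨ Ψ.Holds (v : ℚ) b) ≤ f.size ^ (-η)) ∧
      -- random sequences
      (∀ (Ω : Type) [MeasurableSpace Ω] (P : Measure Ω) [IsProbabilityMeasure P] (X : ℕ → Ω → ℤ) (f : ℕ → Fam),
        (∀ i, f i ∈ 𝓕 κ) → (∀ i, Law P (X i) (f i)) → (∀ᶠ i : ℕ in atTop, ((i : ℝ) + 1) ^ A ≤ (f i).size) →
        ∀ᵐ w ∂P,
          (∀ (K : Type) [Field K] [NumberField K] (D : Set K), Thin D → ∀ᶠ i in atTop, ((X i w : ℤ) : K) ∉ D) ∧
          (∀ (K : Type) [Field K] [NumberField K] (Q : Set ℕ), Rich Q →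
            ∀ (Φ : Formula K) (b : K), Φ.AdmissibleAt b → Φ.SoundAt Q b → ∀ᶠ i in atTop, ¬ Φ.Holds ((X i w : ℤ) : K) b) ∧
          (∀ Q : Set ℕ, Rich Q → ∀ (Φ : Formula ℚ) (Ψ : Forms) (b : ℚ), Φ.AdmissibleAt b → Ψ.RankFiveAt b →
            (∀ a : ℚ, (Φ.Holds a b ∨ Ψ.Holds a b) → PoleRel ℚ Q a b) →
            ∀ᶠ i in atTop, ¬ (Φ.Holds ((X i w : ℤ) : ℚ) b ∨ Ψ.Holds ((X i w : ℤ) : ℚ) b))) := by
  obtain ⟨e, ρ, hρ, H⟩ := Pool.Agent.T3h87.SS.thin_sparse (fun _ => 𝓕) (fun _ => h𝓕)
  have hA0 : 0 < 4 / ρ + 2 * e / ρ := by positivity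
  obtain ⟨S₀, hS₀, hlog⟩ := Pool.Agent.T3h87.SS.log_absorb e ρ hρ
  refine ⟨ρ / 2, 4 / ρ + 2 * e / ρ, by positivity, hA0, fun κ hκ => ?_⟩
  have H1 := H (fun _ => κ) (fun _ => hκ)
  have key : ∀ (K : Type) [Field K] [NumberField K] (D : Set K), Thin D →
      ∃ Z₀ : ℝ, ∀ f ∈ 𝓕 κ, Z₀ ≤ f.size → prob f (fun v => (v : K) ∈ D) ≤ f.size ^ (-(ρ / 2)) := by
    intro K _ _ D hD
    obtain ⟨Y₀, -, J⟩ := H1 K D hD
    refine ⟨max Y₀ S₀, fun f hf hsz => ?_⟩
    have h1 := J f.size ((le_max_left _ _).trans hsz) (fun _ => f) (fun _ => hf) (fun _ => le_rfl)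
    rw [Pool.Agent.T3h87.SS.probability_unit f (fun t => (t : K) ∈ D)] at h1
    refine h1.trans (le_trans (le_of_eq ?_) (hlog f.size ((le_max_right _ _).trans hsz)))
    simp
  refine ⟨key, fun K _ _ Q hQ Φ b hΦ hs => key K _ (thin_formula hQ Φ b hΦ hs),
    fun Q hQ Φ Ψ b hΦ hΨ hs => key ℚ _ (thin_forms hQ Φ Ψ b hΦ hΨ hs), fun Ω _ P _ X f hf hX hg => ?_⟩
  filter_upwards [Pool.Agent.T3h87.SS.thin_ae (fun _ => 𝓕) (fun _ => h𝓕) (κ := fun _ => κ) (fun _ => hκ) hρ le_rfl H1 P
    (fun i w _ => X i w) (fun i _ => f i) (fun i _ => hf i) (fun i => (hX i).hasLaw)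
    (Pool.Agent.T3h87.SS.growing_of _ hA0 f hg)] with w hw
  exact ⟨fun K _ _ D hD => hw K D hD, fun K _ _ Q hQ Φ b hΦ hs => hw K _ (thin_formula hQ Φ b hΦ hs),
    fun Q hQ Φ Ψ b hΦ hΨ hs => hw ℚ _ (thin_forms hQ Φ Ψ b hΦ hΨ hs)⟩

end Pool.Agent.Results.MP_a59382_lc.SparseMembers
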